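import Mathlib
import Pool.Agent.X132.ShadowD

/-!
# The shadow of a Euclidean Vietoris-Rips complex of a fine sample need not have the homotopy type
of the underlying compactum
-/

namespace Pool.Agent.Results.MP_320b68_gt.ShadowCounterexample

open Set Topology Pool.Agent.X132.Shadow

universe u

theorem im_div_nonneg {z w : ℂ} (h : 0 ≤ z.im * w.re - z.re * w.im) : 0 ≤ (z / w).im := by
  rw [Complex.div_im, ← sub_div]
  exact div_nonneg h (Complex.normSq_nonneg _)

theorem im_div_pos {z w : ℂ} (hw : w ≠ 0) (h : 0 < z.im * w.re - z.re * w.im) :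
    0 < (z / w).im := by
  rw [Complex.div_im, ← sub_div]
  exact div_pos h (Complex.normSq_pos.2 hw)

theorem edge1 (k n : ℕ) (hm : 65 * (1 / 4 : ℝ) ^ (k + 1 + n) < (1 / 4) ^ k) {x : ℝ}
    (h1 : (1 / 4) ^ k * (1 / 4) ≤ x) (h2 : x ≤ (1 / 4) ^ k * (2 / 4)) :
    arc x ∈ shadow ((1 / 4) ^ k) (sample (k + 1 + n)) := by
  refine edge_mem k n 1 (by norm_num) hm (A := 32) (B := -(8 * (1 / 4) ^ k)) (C := 0) (D := 0)
    (fun y hy => ?_) (fun y hy => ?_) ⟨by push_cast; linarith, by push_cast; linarith⟩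
  · have hy1 := hy.1
    have hy2 := hy.2
    push_cast at hy1 hy2
    rw [(piece1 k (by linarith) (by linarith)).1]; ring
  · have hy1 := hy.1
    have hy2 := hy.2
    push_cast at hy1 hy2
    rw [(piece1 k (by linarith) (by linarith)).2]; ring

theorem edge2 (k n : ℕ) (hm : 65 * (1 / 4 : ℝ) ^ (k + 1 + n) < (1 / 4) ^ k) {x : ℝ}
    (h1 : (1 / 4) ^ k * (2 / 4) ≤ x) (h2 : x ≤ (1 / 4) ^ k * (3 / 4)) :
    arc x ∈ shadow ((1 / 4) ^ k) (sample (k + 1 + n)) := by
  refine edge_mem k n 2 (by norm_num) hm (A := -32) (B := 24 * (1 / 4) ^ k) (C := 32)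
    (D := -(16 * (1 / 4) ^ k))
    (fun y hy => ?_) (fun y hy => ?_) ⟨by push_cast; linarith, by push_cast; linarith⟩
  · have hy1 := hy.1
    have hy2 := hy.2
    push_cast at hy1 hy2
    rw [(piece2 k (by linarith) (by linarith)).1]; ring
  · have hy1 := hy.1
    have hy2 := hy.2
    push_cast at hy1 hy2
    rw [(piece2 k (by linarith) (by linarith)).2]; ring

theorem edge3 (k n : ℕ) (hm : 65 * (1 / 4 : ℝ) ^ (k + 1 + n) < (1 / 4) ^ k) {x : ℝ}
    (h1 : (1 / 4) ^ k * (3 / 4) ≤ x) (h2 : x ≤ (1 / 4) ^ k) :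
    arc x ∈ shadow ((1 / 4) ^ k) (sample (k + 1 + n)) := by
  refine edge_mem k n 3 (by norm_num) hm (A := 0) (B := 0) (C := -32) (D := 32 * (1 / 4) ^ k)
    (fun y hy => ?_) (fun y hy => ?_) ⟨by push_cast; linarith, by push_cast; linarith⟩
  · have hy1 := hy.1
    have hy2 := hy.2
    push_cast at hy1 hy2
    rw [(piece3 k (by linarith) (by linarith)).1]; ring
  · have hy1 := hy.1
    have hy2 := hy.2
    push_cast at hy1 hy2
    rw [(piece3 k (by linarith) (by linarith)).2]; ring

theorem edge4 (k n : ℕ) {w : E3}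
    (hw : w ∈ segment ℝ (arc ((1 / 4) ^ k)) (arc ((1 / 4) ^ k * (1 / 4)))) :
    w ∈ shadow ((1 / 4) ^ k) (sample (k + 1 + n)) := by
  have hq : (0 : ℝ) < (1 / 4) ^ k := by positivity
  have e1 : (((4 * 4 ^ n : ℕ) : ℝ)) * (1 / 4) ^ (k + 1 + n) = (1 / 4) ^ k := by
    push_cast
    rw [pow_add, pow_add]
    have := four_mul n
    calc (4 : ℝ) * 4 ^ n * ((1 / 4) ^ k * (1 / 4) ^ 1 * (1 / 4) ^ n)
        = (1 / 4) ^ k * (4 ^ n * (1 / 4) ^ n) := by ring
      _ = (1 / 4) ^ k := by rw [this, mul_one]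
  have e2 : (((4 ^ n : ℕ) : ℝ)) * (1 / 4) ^ (k + 1 + n) = (1 / 4) ^ k * (1 / 4) := by
    push_cast
    rw [pow_add, pow_add]
    have := four_mul n
    calc (4 : ℝ) ^ n * ((1 / 4) ^ k * (1 / 4) ^ 1 * (1 / 4) ^ n)
        = (1 / 4) ^ k * (1 / 4) * (4 ^ n * (1 / 4) ^ n) := by ring
      _ = (1 / 4) ^ k * (1 / 4) := by rw [this, mul_one]
  have l1 : 4 * 4 ^ n ≤ 4 ^ (k + 1 + n) := by
    calc 4 * 4 ^ n = 4 ^ (n + 1) := by ring
      _ ≤ 4 ^ (k + 1 + n) := Nat.pow_le_pow_right (by norm_num) (by omega)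
  have m1 := sample_mem (m := k + 1 + n) (i := 4 * 4 ^ n) l1
  have m2 := sample_mem (m := k + 1 + n) (i := 4 ^ n) (by omega)
  rw [e1] at m1
  rw [e2] at m2
  refine seg_mem m1 m2 ?_ hw
  have h1 := piece3 k (x := (1 / 4) ^ k) (by linarith) le_rfl
  have h2 := piece1 k (x := (1 / 4) ^ k * (1 / 4)) le_rfl (by linarith)
  rw [dist_eq_norm]
  refine lt_of_le_of_lt (norm_le_sum _) ?_
  simp only [PiLp.sub_apply, arc_zero, arc_one, arc_two]
  rw [h1.1, h1.2, h2.1, h2.2]
  rw [abs_of_nonneg (by linarith)]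
  have e3 : (0 : ℝ) - (32 * ((1 / 4) ^ k * (1 / 4)) - 8 * (1 / 4) ^ k) = 0 := by ring
  have e4 : 32 * (1 / 4 : ℝ) ^ k - 32 * (1 / 4) ^ k - 0 = 0 := by ring
  rw [e3, e4, abs_zero]
  linarith

theorem not_contractible (k n : ℕ) (hm : 65 * (1 / 4 : ℝ) ^ (k + 1 + n) < (1 / 4) ^ k) :
    ¬ ContractibleSpace (shadow ((1 / 4) ^ k) (sample (k + 1 + n))) := by
  intro hc
  have hq : (0 : ℝ) < (1 / 4) ^ k := by positivity
  set q : ℝ := (1 / 4) ^ k with hqdef
  set X := shadow q (sample (k + 1 + n)) with hX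
  -- the projection
  let P : C(X, {z : ℂ // z ≠ 0}) :=
    ⟨fun w => ⟨⟨w.1 1 - 2 * q, w.1 2 - 2 * q⟩, by
      intro h
      have h1 := congrArg Complex.re h
      have h2 := congrArg Complex.im h
      simp only [Complex.zero_re, Complex.zero_im] at h1 h2
      exact shadow_avoids k (k + 1 + n) w.2 ⟨by linarith, by linarith⟩⟩, by
      refine Continuous.subtype_mk ?_ _
      have : (fun w : X => (⟨w.1 1 - 2 * q, w.1 2 - 2 * q⟩ : ℂ)) =
          fun w : X => ((w.1 1 - 2 * q : ℝ) : ℂ) + ((w.1 2 - 2 * q : ℝ) : ℂ) * Complex.I := by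
        funext w
        apply Complex.ext <;> simp
      rw [this]
      fun_prop⟩
  obtain ⟨L, hL⟩ := exists_log P
  have hcont : Continuous arc := arc_lipschitz.continuous
  -- the four edges
  let g1 : unitInterval → X := fun t => ⟨arc (q * ((1 + t) / 4)), edge1 k n hm
    (by have := t.2.1; nlinarith) (by have := t.2.2; nlinarith)⟩
  let g2 : unitInterval → X := fun t => ⟨arc (q * ((2 + t) / 4)), edge2 k n hm
    (by have := t.2.1; nlinarith) (by have := t.2.2; nlinarith)⟩
  let g3 : unitInterval → X := fun t => ⟨arc (q * ((3 + t) / 4)), edge3 k n hm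
    (by have := t.2.1; nlinarith) (by have := t.2.2; nlinarith)⟩
  let g4 : unitInterval → X := fun t => ⟨AffineMap.lineMap (arc q) (arc (q * (1 / 4))) (t : ℝ),
    edge4 k n (by
      rw [segment_eq_image_lineMap]
      exact ⟨t, t.2, rfl⟩)⟩
  have c1 : Continuous g1 := Continuous.subtype_mk (hcont.comp (by fun_prop)) _
  have c2 : Continuous g2 := Continuous.subtype_mk (hcont.comp (by fun_prop)) _
  have c3 : Continuous g3 := Continuous.subtype_mk (hcont.comp (by fun_prop)) _
  have c4 : Continuous g4 := Continuous.subtype_mk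
    ((AffineMap.lineMap_continuous).comp continuous_subtype_val) _
  -- values of the projection along the edges
  have v1 : ∀ t, (P (g1 t) : ℂ) = ⟨8 * q * t - 2 * q, -(2 * q)⟩ := by
    intro t
    have h := piece1 k (x := q * ((1 + t) / 4)) (by have := t.2.1; nlinarith)
      (by have := t.2.2; nlinarith)
    apply Complex.ext
    · change arc _ 1 - 2 * q = 8 * q * t - 2 * q
      rw [arc_one, h.1]; ring
    · change arc _ 2 - 2 * q = -(2 * q)
      rw [arc_two, h.2]; ring
  have v2 : ∀ t, (P (g2 t) : ℂ) = ⟨6 * q - 8 * q * t, 8 * q * t - 2 * q⟩ := by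
    intro t
    have h := piece2 k (x := q * ((2 + t) / 4)) (by have := t.2.1; nlinarith)
      (by have := t.2.2; nlinarith)
    apply Complex.ext
    · change arc _ 1 - 2 * q = 6 * q - 8 * q * t
      rw [arc_one, h.1]; ring
    · change arc _ 2 - 2 * q = 8 * q * t - 2 * q
      rw [arc_two, h.2]; ring
  have v3 : ∀ t, (P (g3 t) : ℂ) = ⟨-(2 * q), 6 * q - 8 * q * t⟩ := by
    intro t
    have h := piece3 k (x := q * ((3 + t) / 4)) (by have := t.2.1; nlinarith)
      (by have := t.2.2; nlinarith)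
    apply Complex.ext
    · change arc _ 1 - 2 * q = -(2 * q)
      rw [arc_one, h.1]; ring
    · change arc _ 2 - 2 * q = 6 * q - 8 * q * t
      rw [arc_two, h.2]; ring
  have v4 : ∀ t, (P (g4 t) : ℂ) = ⟨-(2 * q), -(2 * q)⟩ := by
    intro t
    have h1 := piece3 k (x := q) (by nlinarith) le_rfl
    have h2 := piece1 k (x := q * (1 / 4)) le_rfl (by nlinarith)
    have e1 : 32 * q - 32 * q = 0 := by ring
    have e2 : 32 * (q * (1 / 4)) - 8 * q = 0 := by ring
    apply Complex.ext
    · change (AffineMap.lineMap (arc q) (arc (q * (1 / 4))) (t : ℝ) : E3) 1 - 2 * q = -(2 * q)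
      rw [AffineMap.lineMap_apply]
      simp only [vsub_eq_sub, vadd_eq_add, PiLp.add_apply, PiLp.smul_apply, PiLp.sub_apply,
        arc_one, smul_eq_mul]
      rw [h1.1, h2.1]
      ring
    · change (AffineMap.lineMap (arc q) (arc (q * (1 / 4))) (t : ℝ) : E3) 2 - 2 * q = -(2 * q)
      rw [AffineMap.lineMap_apply]
      simp only [vsub_eq_sub, vadd_eq_add, PiLp.add_apply, PiLp.smul_apply, PiLp.sub_apply,
        arc_two, smul_eq_mul]
      rw [h1.2, h2.2]
      ring
  have i1 := im_le (θ := fun t => L (g1 t)) (w := fun t => (P (g1 t) : ℂ)) (L.continuous.comp c1)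
    (fun t => hL _) (by
      intro t
      apply im_div_nonneg
      rw [v1, v1]
      simp only [Set.Icc.coe_zero]
      have := t.2.1
      nlinarith [mul_nonneg (mul_nonneg hq.le hq.le) this])
  have i1' := im_ne (θ := fun t => L (g1 t)) (w := fun t => (P (g1 t) : ℂ)) (fun t => hL _) (by
      apply im_div_pos (P (g1 0)).2
      rw [v1, v1]
      simp only [Set.Icc.coe_zero, Set.Icc.coe_one]
      nlinarith [mul_pos hq hq])
  have i2 := im_le (θ := fun t => L (g2 t)) (w := fun t => (P (g2 t) : ℂ)) (L.continuous.comp c2)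
    (fun t => hL _) (by
      intro t
      apply im_div_nonneg
      rw [v2, v2]
      simp only [Set.Icc.coe_zero]
      have := t.2.1
      nlinarith [mul_nonneg (mul_nonneg hq.le hq.le) this])
  have i3 := im_le (θ := fun t => L (g3 t)) (w := fun t => (P (g3 t) : ℂ)) (L.continuous.comp c3)
    (fun t => hL _) (by
      intro t
      apply im_div_nonneg
      rw [v3, v3]
      simp only [Set.Icc.coe_zero]
      have := t.2.1
      nlinarith [mul_nonneg (mul_nonneg hq.le hq.le) this])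
  have i4 := im_le (θ := fun t => L (g4 t)) (w := fun t => (P (g4 t) : ℂ)) (L.continuous.comp c4)
    (fun t => hL _) (by
      intro t
      apply im_div_nonneg
      rw [v4, v4]
      simp only
      nlinarith)
  -- the edges form a closed loop
  have j1 : g1 1 = g2 0 := by
    apply Subtype.ext
    change arc _ = arc _
    congr 1
    simp only [Set.Icc.coe_zero, Set.Icc.coe_one]; ring
  have j2 : g2 1 = g3 0 := by
    apply Subtype.ext
    change arc _ = arc _
    congr 1
    simp only [Set.Icc.coe_zero, Set.Icc.coe_one]; ring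
  have j3 : g3 1 = g4 0 := by
    apply Subtype.ext
    change arc _ = AffineMap.lineMap _ _ _
    simp only [Set.Icc.coe_zero, Set.Icc.coe_one, AffineMap.lineMap_apply_zero]
    congr 1; ring
  have j4 : g4 1 = g1 0 := by
    apply Subtype.ext
    change AffineMap.lineMap _ _ _ = arc _
    simp only [Set.Icc.coe_zero, Set.Icc.coe_one, AffineMap.lineMap_apply_one]
    congr 1; ring
  rw [j1] at i1 i1'
  rw [j2] at i2
  rw [j3] at i3
  rw [j4] at i4
  exact i1' (le_antisymm (by linarith) i1)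

/-- **The shadow conjecture fails.** There is a compact connected set `M` in Euclidean three-space
(an arc) satisfying all the standing assumptions, such that for arbitrarily small `β > 0` there
are arbitrarily fine finite samples `S` of `M` for which the shadow of the Euclidean
Vietoris-Rips complex of `S` at scale `β` is not homotopy equivalent to `M`. -/
theorem result : ∃ M : Set (EuclideanSpace ℝ (Fin 3)), Admissible.{u} M ∧
    Nonempty (M ≃ₜ unitInterval) ∧
    ∀ β₀ > 0, ∃ β, 0 < β ∧ β < β₀ ∧ ∀ η > 0, ∃ S : Finset (EuclideanSpace ℝ (Fin 3)),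
      Metric.hausdorffEDist (S : Set (EuclideanSpace ℝ (Fin 3))) M < ENNReal.ofReal η ∧
      ¬ Nonempty (ContinuousMap.HomotopyEquiv (shadow β S) M) := by
  refine ⟨theArc, arc_admissible, ⟨arcHomeo⟩, fun β₀ hβ₀ => ?_⟩
  obtain ⟨k, hk⟩ := exists_pow_lt_of_lt_one hβ₀ (show (1 / 4 : ℝ) < 1 by norm_num)
  refine ⟨(1 / 4) ^ k, by positivity, hk, fun η hη => ?_⟩
  obtain ⟨n, hn⟩ := exists_pow_lt_of_lt_one (show 0 < min η ((1 / 4) ^ k) / 65 by positivity)
    (show (1 / 4 : ℝ) < 1 by norm_num)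
  have hn' : 65 * (1 / 4 : ℝ) ^ (k + 1 + n) < min η ((1 / 4) ^ k) := by
    have h1 : (1 / 4 : ℝ) ^ (k + 1 + n) ≤ (1 / 4) ^ n :=
      pow_le_pow_of_le_one (by norm_num) (by norm_num) (by omega)
    have h2 : 65 * (1 / 4 : ℝ) ^ n < min η ((1 / 4) ^ k) := by
      rw [lt_div_iff₀ (by norm_num)] at hn
      linarith
    linarith
  refine ⟨sample (k + 1 + n), sample_dist _ (lt_of_lt_of_le hn' (min_le_left _ _)), ?_⟩
  rintro ⟨e⟩
  have := theArc_contractible
  exact not_contractible k n (lt_of_lt_of_le hn' (min_le_right _ _)) e.contractibleSpace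

end Pool.Agent.Results.MP_320b68_gt.ShadowCounterexample
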